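import Pool.Agent.H44.MS.Basics

set_option autoImplicit false

namespace Pool.Agent.H99.MS

open Finset Real Pool.Agent.H44.MS

/-! ## The sum of the common divisors -/

theorem sg_le {j h : ℕ} (hh0 : h ≠ 0) : (sg j h : ℝ) ≤ (h : ℝ) ^ 2 := by
  have h1 : sg j h ≤ h * h := by
    unfold sg
    have hg : Nat.gcd j h ∣ h := Nat.gcd_dvd_right j h
    calc ∑ i ∈ (Nat.gcd j h).divisors, i ≤ ∑ i ∈ h.divisors, i :=
          Finset.sum_le_sum_of_subset (Nat.divisors_subset_of_dvd hh0 hg)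
      _ ≤ ∑ _i ∈ h.divisors, h := Finset.sum_le_sum (fun i hi => Nat.divisor_le hi)
      _ = h.divisors.card * h := by rw [Finset.sum_const, smul_eq_mul]
      _ ≤ h * h := Nat.mul_le_mul_right h (Nat.card_divisors_le_self h)
  have h2 : ((sg j h : ℕ) : ℝ) ≤ ((h * h : ℕ) : ℝ) := by exact_mod_cast h1
  rw [sq]
  simpa using h2

theorem sum_tail (z K : ℕ) (hz : 1 ≤ z) :
    ∑ j ∈ Icc 2 K, ic (z < j) * (1 / (j : ℝ) ^ 2) ≤ 1 / (z : ℝ) := by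
  classical
  rw [sum_ic_mul]
  have h1 : ∀ M : ℕ, z ≤ M → ∑ j ∈ Ioc z M, 1 / (j : ℝ) ^ 2 ≤ 1 / (z : ℝ) - 1 / (M : ℝ) := by
    intro M hM
    induction M, hM using Nat.le_induction with
    | base => simp
    | succ M hM ih =>
      rw [← Finset.insert_Ioc_right_eq_Ioc_add_one hM, Finset.sum_insert (by simp)]
      have hM0 : (0 : ℝ) < M := by exact_mod_cast (by omega : 0 < M)
      have h2 : 1 / ((M + 1 : ℕ) : ℝ) ^ 2 ≤ 1 / (M : ℝ) - 1 / ((M + 1 : ℕ) : ℝ) := by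
        push_cast
        rw [div_sub_div _ _ hM0.ne' (by positivity), div_le_div_iff₀ (by positivity) (by positivity)]
        nlinarith
      linarith
  have h3 : (Icc 2 K).filter (fun j => z < j) ⊆ Ioc z (max z K) := by
    intro j hj
    simp only [Finset.mem_filter, Finset.mem_Icc, Finset.mem_Ioc] at hj ⊢
    exact ⟨hj.2, hj.1.2.trans (le_max_right _ _)⟩
  calc ∑ j ∈ (Icc 2 K).filter (fun j => z < j), 1 / (j : ℝ) ^ 2
      ≤ ∑ j ∈ Ioc z (max z K), 1 / (j : ℝ) ^ 2 :=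
        Finset.sum_le_sum_of_subset_of_nonneg h3 (fun _ _ _ => by positivity)
    _ ≤ 1 / z - 1 / ((max z K : ℕ) : ℝ) := h1 _ (le_max_left _ _)
    _ ≤ 1 / z := by
        have : (0 : ℝ) ≤ 1 / ((max z K : ℕ) : ℝ) := by positivity
        linarith

theorem sum_sg_tail (z K h : ℕ) (hz : 1 ≤ z) (hh0 : h ≠ 0) :
    ∑ j ∈ Icc 2 K, ic (z < j) * (sg j h / (j : ℝ) ^ 2) ≤ (h : ℝ) ^ 2 / z := by
  calc ∑ j ∈ Icc 2 K, ic (z < j) * (sg j h / (j : ℝ) ^ 2)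
      ≤ ∑ j ∈ Icc 2 K, (h : ℝ) ^ 2 * (ic (z < j) * (1 / (j : ℝ) ^ 2)) := by
        refine Finset.sum_le_sum (fun j _ => ?_)
        have h1 := sg_le (j := j) hh0
        have h2 : ic (z < j) * (sg j h / (j : ℝ) ^ 2) = sg j h * (ic (z < j) * (1 / (j : ℝ) ^ 2)) := by
          ring
        rw [h2]
        exact mul_le_mul_of_nonneg_right h1 (mul_nonneg (ic_nonneg _) (by positivity))
    _ = (h : ℝ) ^ 2 * ∑ j ∈ Icc 2 K, ic (z < j) * (1 / (j : ℝ) ^ 2) := by rw [Finset.mul_sum]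
    _ ≤ (h : ℝ) ^ 2 * (1 / z) := mul_le_mul_of_nonneg_left (sum_tail z K hz) (by positivity)
    _ = (h : ℝ) ^ 2 / z := by ring

theorem hh_ne_zero {Q b t₁ t₂ : ℕ} (hQ : 1 ≤ Q) (ht : t₁ ≠ t₂) :
    hh (b + Q * t₁) (b + Q * t₂) ≠ 0 := by
  unfold hh
  rw [Int.natAbs_ne_zero]
  intro h
  have h1 : ((b + Q * t₁ : ℕ) : ℤ) ^ 2 = ((b + Q * t₂ : ℕ) : ℤ) ^ 2 := by linarith
  have h2 : (b + Q * t₁) ^ 2 = (b + Q * t₂) ^ 2 := by exact_mod_cast h1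
  have h3 : b + Q * t₁ = b + Q * t₂ := Nat.pow_left_injective (n := 2) (by norm_num) h2
  have h4 : Q * t₁ = Q * t₂ := by omega
  exact ht (Nat.eq_of_mul_eq_mul_left (by omega) h4)

theorem hh_le {Q b t₁ t₂ T : ℕ} (hb : b ≤ Q) (h1 : t₁ ≤ T) (h2 : t₂ ≤ T) :
    (hh (b + Q * t₁) (b + Q * t₂) : ℝ) ≤ ((Q : ℝ) * (T + 1)) ^ 2 := by
  have h3 : b + Q * t₁ ≤ Q * (T + 1) := by nlinarith
  have h4 : b + Q * t₂ ≤ Q * (T + 1) := by nlinarith
  have h5 : hh (b + Q * t₁) (b + Q * t₂) ≤ (Q * (T + 1)) ^ 2 := by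
    unfold hh
    have h6 : (b + Q * t₁) ^ 2 ≤ (Q * (T + 1)) ^ 2 := Nat.pow_le_pow_left h3 2
    have h7 : (b + Q * t₂) ^ 2 ≤ (Q * (T + 1)) ^ 2 := Nat.pow_le_pow_left h4 2
    generalize b + Q * t₁ = A at *
    generalize b + Q * t₂ = B at *
    generalize Q * (T + 1) = D at *
    zify
    have h8 : (A : ℤ) ^ 2 ≤ (D : ℤ) ^ 2 := by exact_mod_cast h6
    have h9 : (B : ℤ) ^ 2 ≤ (D : ℤ) ^ 2 := by exact_mod_cast h7
    have h10 : (0 : ℤ) ≤ (A : ℤ) ^ 2 := by positivity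
    have h11 : (0 : ℤ) ≤ (B : ℤ) ^ 2 := by positivity
    rw [abs_le]
    constructor <;> linarith
  have h6 : ((hh (b + Q * t₁) (b + Q * t₂) : ℕ) : ℝ) ≤ (((Q * (T + 1)) ^ 2 : ℕ) : ℝ) := by
    exact_mod_cast h5
  push_cast at h6
  exact h6


/-! ## The off-diagonal terms -/

theorem point_bound {y z Q : ℕ} {tc : ℕ → ℝ} {CT A V W : ℝ}
    (hQp : ∀ p : ℕ, p.Prime → p ∣ Q → p ≤ y)
    (h1 : ∀ j : ℕ, 2 ≤ j → j ≤ z → |tc j| ≤
      2 * |A| * (ic (An (A3 y) z j) * CT ^ (j.primeFactors.card + 1) * V / j))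
    (h2 : ∀ j : ℕ, 1 ≤ j → |tc j| ≤ 2 / j * W) (j h : ℕ) (hj : 2 ≤ j) :
    sg j h * tc j ^ 2 ≤ 4 * A ^ 2 * CT ^ 2 * V ^ 2 *
        (ic (Squarefree j ∧ Rough y j ∧ Nat.Coprime j Q) *
          ((CT ^ 2) ^ j.primeFactors.card * sg j h / (j : ℝ) ^ 2)) +
      4 * W ^ 2 * (ic (z < j) * (sg j h / (j : ℝ) ^ 2)) := by
  have hj0 : (0 : ℝ) < j := by exact_mod_cast (by omega : 0 < j)
  have hsg : (0 : ℝ) ≤ sg j h := Nat.cast_nonneg _
  have e1 : 0 ≤ 4 * A ^ 2 * CT ^ 2 * V ^ 2 *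
        (ic (Squarefree j ∧ Rough y j ∧ Nat.Coprime j Q) *
          ((CT ^ 2) ^ j.primeFactors.card * sg j h / (j : ℝ) ^ 2)) := by
    have := ic_nonneg (Squarefree j ∧ Rough y j ∧ Nat.Coprime j Q)
    positivity
  have e2 : 0 ≤ 4 * W ^ 2 * (ic (z < j) * (sg j h / (j : ℝ) ^ 2)) := by
    have := ic_nonneg (z < j)
    positivity
  by_cases hjz : j ≤ z
  · have h3 := h1 j hj hjz
    by_cases hA : An (A3 y) z j
    · rw [ic_pos hA] at h3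
      have hcond : Squarefree j ∧ Rough y j ∧ Nat.Coprime j Q := by
        refine ⟨hA.1, fun p hp hd => (hA.2 p hp hd).1.2, ?_⟩
        refine Nat.coprime_of_dvd ?_
        intro p hp hpj hpQ
        exact absurd (hQp p hp hpQ) (not_le.2 (hA.2 p hp hpj).1.2)
      rw [ic_pos hcond] at e1 ⊢
      have h4 : tc j ^ 2 ≤ (2 * |A| * (1 * CT ^ (j.primeFactors.card + 1) * V / j)) ^ 2 := by
        rw [← sq_abs (tc j)]
        exact pow_le_pow_left₀ (abs_nonneg _) h3 2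
      have h5 : (2 * |A| * (1 * CT ^ (j.primeFactors.card + 1) * V / j)) ^ 2 =
          4 * A ^ 2 * CT ^ 2 * V ^ 2 * ((CT ^ 2) ^ j.primeFactors.card / (j : ℝ) ^ 2) := by
        rw [mul_pow, mul_pow, sq_abs, div_pow, mul_pow, mul_pow, ← pow_mul, ← pow_mul]
        ring
      rw [h5] at h4
      have h6 := mul_le_mul_of_nonneg_left h4 hsg
      calc sg j h * tc j ^ 2 ≤ sg j h * (4 * A ^ 2 * CT ^ 2 * V ^ 2 *
            ((CT ^ 2) ^ j.primeFactors.card / (j : ℝ) ^ 2)) := h6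
        _ = 4 * A ^ 2 * CT ^ 2 * V ^ 2 *
            (1 * ((CT ^ 2) ^ j.primeFactors.card * sg j h / (j : ℝ) ^ 2)) := by ring
        _ ≤ _ := le_add_of_nonneg_right e2
    · rw [ic_neg hA] at h3
      have h4 : tc j = 0 := by
        have h5 : |tc j| ≤ 0 := by
          refine h3.trans (le_of_eq ?_)
          ring
        exact abs_nonpos_iff.1 h5
      rw [h4]
      have h6 : (sg j h : ℝ) * 0 ^ 2 = 0 := by ring
      rw [h6]
      linarith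
  · have hzj : z < j := not_le.1 hjz
    have h3 := h2 j (by omega)
    have h4 : tc j ^ 2 ≤ (2 / j * W) ^ 2 := by
      rw [← sq_abs (tc j)]
      exact pow_le_pow_left₀ (abs_nonneg _) h3 2
    have h6 := mul_le_mul_of_nonneg_left h4 hsg
    rw [ic_pos hzj]
    calc sg j h * tc j ^ 2 ≤ sg j h * (2 / j * W) ^ 2 := h6
      _ = 4 * W ^ 2 * (1 * (sg j h / (j : ℝ) ^ 2)) := by ring
      _ ≤ _ := le_add_of_nonneg_left e1

theorem off_bound {y z K Q b T : ℕ} {tc : ℕ → ℝ} {CT A V W CA : ℝ} (hz : 1 ≤ z) (hQ : 1 ≤ Q)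
    (hb : b ≤ Q) (hQp : ∀ p : ℕ, p.Prime → p ∣ Q → p ≤ y)
    (h1 : ∀ j : ℕ, 2 ≤ j → j ≤ z → |tc j| ≤
      2 * |A| * (ic (An (A3 y) z j) * CT ^ (j.primeFactors.card + 1) * V / j))
    (h2 : ∀ j : ℕ, 1 ≤ j → |tc j| ≤ 2 / j * W)
    (hAV : ∑ t₁ ∈ Icc 1 T, ∑ t₂ ∈ Icc 1 T, ic (t₁ ≠ t₂) *
        ∑ j ∈ Icc 2 K, ic (Squarefree j ∧ Rough y j ∧ Nat.Coprime j Q) *
          ((CT ^ 2) ^ j.primeFactors.card * sg j (hh (b + Q * t₁) (b + Q * t₂)) / (j : ℝ) ^ 2) ≤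
      CA) :
    ∑ t₁ ∈ Icc 1 T, ∑ t₂ ∈ Icc 1 T, ic (t₁ ≠ t₂) *
            ∑ j ∈ Icc 2 K, sg j (hh (b + Q * t₁) (b + Q * t₂)) * tc j ^ 2 ≤
      4 * A ^ 2 * CT ^ 2 * V ^ 2 * CA +
        4 * W ^ 2 * ((T : ℝ) ^ 2 * (((Q : ℝ) * (T + 1)) ^ 4 / z)) := by
  have hz0 : (0 : ℝ) < z := by exact_mod_cast (by omega : 0 < z)
  set M1 : ℝ := 4 * A ^ 2 * CT ^ 2 * V ^ 2 with hM1
  set M2 : ℝ := 4 * W ^ 2 with hM2
  have hM1' : 0 ≤ M1 := by positivity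
  have hM2' : 0 ≤ M2 := by positivity
  have step : ∀ t₁ ∈ Icc 1 T, ∀ t₂ ∈ Icc 1 T, ic (t₁ ≠ t₂) *
            ∑ j ∈ Icc 2 K, (sg j (hh (b + Q * t₁) (b + Q * t₂)) : ℝ) * tc j ^ 2 ≤
      M1 * (ic (t₁ ≠ t₂) *
        ∑ j ∈ Icc 2 K, ic (Squarefree j ∧ Rough y j ∧ Nat.Coprime j Q) *
          ((CT ^ 2) ^ j.primeFactors.card * sg j (hh (b + Q * t₁) (b + Q * t₂)) / (j : ℝ) ^ 2)) +
        M2 * (((Q : ℝ) * (T + 1)) ^ 4 / z) := by
    intro t₁ ht₁ t₂ ht₂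
    have hnn : 0 ≤ M2 * (((Q : ℝ) * (T + 1)) ^ 4 / z) := by positivity
    by_cases ht : t₁ ≠ t₂
    · rw [ic_pos ht, one_mul, one_mul]
      set h := hh (b + Q * t₁) (b + Q * t₂) with hhd
      have hh0 : h ≠ 0 := hh_ne_zero hQ ht
      have hhle : (h : ℝ) ≤ ((Q : ℝ) * (T + 1)) ^ 2 :=
        hh_le hb (Finset.mem_Icc.1 ht₁).2 (Finset.mem_Icc.1 ht₂).2
      calc ∑ j ∈ Icc 2 K, (sg j h : ℝ) * tc j ^ 2
          ≤ ∑ j ∈ Icc 2 K, (M1 * (ic (Squarefree j ∧ Rough y j ∧ Nat.Coprime j Q) *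
          ((CT ^ 2) ^ j.primeFactors.card * sg j h / (j : ℝ) ^ 2)) +
            M2 * (ic (z < j) * (sg j h / (j : ℝ) ^ 2))) := by
            refine Finset.sum_le_sum (fun j hj => ?_)
            exact point_bound hQp h1 h2 j h (Finset.mem_Icc.1 hj).1
        _ = M1 * ∑ j ∈ Icc 2 K, ic (Squarefree j ∧ Rough y j ∧ Nat.Coprime j Q) *
          ((CT ^ 2) ^ j.primeFactors.card * sg j h / (j : ℝ) ^ 2) +
            M2 * ∑ j ∈ Icc 2 K, (ic (z < j) * (sg j h / (j : ℝ) ^ 2)) := by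
            rw [Finset.sum_add_distrib, Finset.mul_sum, Finset.mul_sum]
        _ ≤ _ := by
            have h3 := sum_sg_tail z K h hz hh0
            have h4 : (h : ℝ) ^ 2 / z ≤ ((Q : ℝ) * (T + 1)) ^ 4 / z := by
              refine div_le_div_of_nonneg_right ?_ hz0.le
              calc (h : ℝ) ^ 2 ≤ (((Q : ℝ) * (T + 1)) ^ 2) ^ 2 :=
                    pow_le_pow_left₀ (Nat.cast_nonneg _) hhle 2
                _ = ((Q : ℝ) * (T + 1)) ^ 4 := by ring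
            have h5 := mul_le_mul_of_nonneg_left (h3.trans h4) hM2'
            linarith
    · rw [ic_neg ht, zero_mul, zero_mul, mul_zero, zero_add]
      exact hnn
  calc _ ≤ ∑ t₁ ∈ Icc 1 T, ∑ t₂ ∈ Icc 1 T, (M1 * (ic (t₁ ≠ t₂) *
        ∑ j ∈ Icc 2 K, ic (Squarefree j ∧ Rough y j ∧ Nat.Coprime j Q) *
          ((CT ^ 2) ^ j.primeFactors.card * sg j (hh (b + Q * t₁) (b + Q * t₂)) / (j : ℝ) ^ 2)) +
        M2 * (((Q : ℝ) * (T + 1)) ^ 4 / z)) :=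
        Finset.sum_le_sum (fun t₁ ht₁ => Finset.sum_le_sum (fun t₂ ht₂ => step t₁ ht₁ t₂ ht₂))
    _ = M1 * ∑ t₁ ∈ Icc 1 T, ∑ t₂ ∈ Icc 1 T, (ic (t₁ ≠ t₂) *
        ∑ j ∈ Icc 2 K, ic (Squarefree j ∧ Rough y j ∧ Nat.Coprime j Q) *
          ((CT ^ 2) ^ j.primeFactors.card * sg j (hh (b + Q * t₁) (b + Q * t₂)) / (j : ℝ) ^ 2)) +
        T * (T * (M2 * (((Q : ℝ) * (T + 1)) ^ 4 / z))) := by
        rw [Finset.mul_sum]
        have e3 : ∀ t₁ ∈ Icc 1 T, ∑ t₂ ∈ Icc 1 T, (M1 * (ic (t₁ ≠ t₂) *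
        ∑ j ∈ Icc 2 K, ic (Squarefree j ∧ Rough y j ∧ Nat.Coprime j Q) *
          ((CT ^ 2) ^ j.primeFactors.card * sg j (hh (b + Q * t₁) (b + Q * t₂)) / (j : ℝ) ^ 2)) +
        M2 * (((Q : ℝ) * (T + 1)) ^ 4 / z)) = M1 * ∑ t₂ ∈ Icc 1 T, (ic (t₁ ≠ t₂) *
        ∑ j ∈ Icc 2 K, ic (Squarefree j ∧ Rough y j ∧ Nat.Coprime j Q) *
          ((CT ^ 2) ^ j.primeFactors.card * sg j (hh (b + Q * t₁) (b + Q * t₂)) / (j : ℝ) ^ 2)) +
          T * (M2 * (((Q : ℝ) * (T + 1)) ^ 4 / z)) := by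
          intro t₁ _
          rw [Finset.sum_add_distrib, Finset.mul_sum, Finset.sum_const, Nat.card_Icc, nsmul_eq_mul]
          simp
        rw [Finset.sum_congr rfl e3, Finset.sum_add_distrib, Finset.sum_const, Nat.card_Icc,
          nsmul_eq_mul]
        simp
    _ ≤ M1 * CA + T * (T * (M2 * (((Q : ℝ) * (T + 1)) ^ 4 / z))) := by
        have := mul_le_mul_of_nonneg_left hAV hM1'
        linarith
    _ = _ := by ring

/-! ## The parameters -/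

theorem par_facts {s z E N U : ℕ} (hs : U + 20 ≤ s) (hz : 2 ≤ z) (hP : Par s z E N) :
    z ^ U ≤ E ∧ z ≤ E ∧ z ^ (4 * s + 5) * E ≤ Nat.sqrt N ∧ E ≤ N ∧ z ^ (4 * s + 4) ≤ N ∧
    z ≤ N := by
  obtain ⟨h1, h2, h3⟩ := hP
  have hz0 : 0 < z := by omega
  have hz1 : 1 ≤ z := hz0
  have hu : 20 * s ≤ s ^ 100 := by
    have h4 : s ^ 2 ≤ s ^ 100 := Nat.pow_le_pow_right (by omega) (by norm_num)
    have h5 : 20 * s ≤ s ^ 2 := by
      rw [sq]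
      exact Nat.mul_le_mul_right s (by omega)
    omega
  generalize s ^ 100 = u at *
  have hq : z ^ (u / 2) ≤ Nat.sqrt N := by
    rw [Nat.le_sqrt, ← pow_add]
    exact (Nat.pow_le_pow_right hz1 (by omega)).trans h1
  have hE : z ^ (u / 2 - (4 * s + 5)) ≤ E := by
    rw [h3, Nat.le_div_iff_mul_le (by positivity), ← pow_add]
    rwa [show u / 2 - (4 * s + 5) + (4 * s + 5) = u / 2 by omega]
  have hEU : z ^ U ≤ E := (Nat.pow_le_pow_right hz1 (by omega)).trans hE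
  have hEz : z ≤ E := by
    calc z = z ^ 1 := (pow_one z).symm
      _ ≤ z ^ (u / 2 - (4 * s + 5)) := Nat.pow_le_pow_right hz1 (by omega)
      _ ≤ E := hE
  have hEq : z ^ (4 * s + 5) * E ≤ Nat.sqrt N := by
    rw [h3]
    exact Nat.mul_div_le _ _
  have hEN : E ≤ N := by
    rw [h3]
    exact (Nat.div_le_self _ _).trans (Nat.sqrt_le_self N)
  have hzN : z ^ (4 * s + 4) ≤ N := (Nat.pow_le_pow_right hz1 (by omega)).trans h1
  refine ⟨hEU, hEz, hEq, hEN, hzN, ?_⟩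
  exact hEz.trans hEN

theorem par_logs {s z E N : ℕ} (hz : 2 ≤ z) (hP : Par s z E N) :
    (s : ℝ) ^ 100 * Real.log z ≤ Real.log N ∧
      Real.log N ≤ ((s : ℝ) ^ 100 + 1) * Real.log z := by
  obtain ⟨h1, h2, h3⟩ := hP
  have hz0 : 0 < z := by omega
  have hN0 : 0 < N := lt_of_lt_of_le (by positivity) h1
  have hzr : (0 : ℝ) < z := by exact_mod_cast hz0
  have hNr : (0 : ℝ) < N := by exact_mod_cast hN0
  constructor
  · have h4 : ((z ^ (s ^ 100) : ℕ) : ℝ) ≤ N := by exact_mod_cast h1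
    have h5 : Real.log ((z ^ (s ^ 100) : ℕ) : ℝ) ≤ Real.log N :=
      Real.log_le_log (by exact_mod_cast (by positivity : 0 < z ^ (s ^ 100))) h4
    rw [Nat.cast_pow, Real.log_pow] at h5
    simpa using h5
  · have h4 : (N : ℝ) ≤ ((z ^ (s ^ 100 + 1) : ℕ) : ℝ) := by exact_mod_cast h2
    have h5 : Real.log N ≤ Real.log ((z ^ (s ^ 100 + 1) : ℕ) : ℝ) := Real.log_le_log hNr h4
    rw [Nat.cast_pow, Real.log_pow] at h5
    simpa using h5

theorem par_inv {s z E N : ℕ} (hz : 2 ≤ z) (hP : Par s z E N) :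
    1 / (z : ℝ) ≤ (N : ℝ) ^ (-(1 / ((s : ℝ) ^ 100 + 1))) := by
  obtain ⟨h1, h2, h3⟩ := hP
  have hz0 : 0 < z := by omega
  have hN0 : 0 < N := lt_of_lt_of_le (by positivity) h1
  have hzr : (0 : ℝ) < z := by exact_mod_cast hz0
  have hNr : (0 : ℝ) < N := by exact_mod_cast hN0
  have h4 : (N : ℝ) ≤ (z : ℝ) ^ (s ^ 100 + 1) := by exact_mod_cast h2
  have h5 : (N : ℝ) ^ (1 / ((s : ℝ) ^ 100 + 1)) ≤ z := by
    calc (N : ℝ) ^ (1 / ((s : ℝ) ^ 100 + 1))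
        ≤ ((z : ℝ) ^ (s ^ 100 + 1)) ^ (1 / ((s : ℝ) ^ 100 + 1)) :=
          Real.rpow_le_rpow hNr.le h4 (by positivity)
      _ = z := by
          rw [← Real.rpow_natCast, ← Real.rpow_mul hzr.le]
          push_cast
          rw [mul_one_div_cancel (by positivity), Real.rpow_one]
  rw [Real.rpow_neg hNr.le, ← one_div]
  exact one_div_le_one_div_of_le (by positivity) h5

theorem TT_lower (s N : ℕ) (hN : 1 ≤ N) : (s : ℝ) ^ 300 * √(Real.log N) ≤ TT s N := by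
  unfold TT
  push_cast
  refine mul_le_mul_of_nonneg_left ?_ (by positivity)
  have h1 : N < 2 ^ (Nat.log 2 N + 1) := Nat.lt_pow_succ_log_self (by norm_num) N
  have h2 : Real.log N ≤ (Nat.log 2 N + 1 : ℕ) := by
    have h3 : (N : ℝ) ≤ ((2 ^ (Nat.log 2 N + 1) : ℕ) : ℝ) := by exact_mod_cast h1.le
    have h4 := Real.log_le_log (by exact_mod_cast hN : (0 : ℝ) < N) h3
    rw [Nat.cast_pow, Real.log_pow] at h4
    have h5 : Real.log ((2 : ℕ) : ℝ) ≤ 1 := by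
      have := Real.log_two_lt_d9
      push_cast
      linarith
    calc Real.log N ≤ (Nat.log 2 N + 1 : ℕ) * Real.log ((2 : ℕ) : ℝ) := h4
      _ ≤ (Nat.log 2 N + 1 : ℕ) * 1 := mul_le_mul_of_nonneg_left h5 (Nat.cast_nonneg _)
      _ = _ := mul_one _
  have h6 : Nat.log 2 N + 1 ≤ (Nat.sqrt (Nat.log 2 N) + 1) * (Nat.sqrt (Nat.log 2 N) + 1) :=
    Nat.lt_succ_sqrt (Nat.log 2 N)
  have h7 : ((Nat.log 2 N + 1 : ℕ) : ℝ) ≤
      ((Nat.sqrt (Nat.log 2 N) : ℝ) + 1) * ((Nat.sqrt (Nat.log 2 N) : ℝ) + 1) := by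
    exact_mod_cast h6
  rw [Real.sqrt_le_left (by positivity)]
  rw [sq]
  exact h2.trans h7

theorem TT_upper (s N : ℕ) (hN : 1 ≤ N) : (TT s N : ℝ) ≤ 2 * (s : ℝ) ^ 300 * (1 + Real.log N) := by
  unfold TT
  push_cast
  have hL : 0 ≤ Real.log N := Real.log_natCast_nonneg N
  have h1 : 2 ^ (Nat.log 2 N) ≤ N := Nat.pow_log_le_self 2 (by omega)
  have h2 : (Nat.log 2 N : ℝ) ≤ 2 * Real.log N := by
    have h3 : ((2 ^ (Nat.log 2 N) : ℕ) : ℝ) ≤ N := by exact_mod_cast h1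
    have h4 := Real.log_le_log (by positivity) h3
    rw [Nat.cast_pow, Real.log_pow] at h4
    have h5 : 1 / 2 ≤ Real.log ((2 : ℕ) : ℝ) := by
      have := Real.log_two_gt_d9
      push_cast
      linarith
    have h6 : (Nat.log 2 N : ℝ) * (1 / 2) ≤ (Nat.log 2 N : ℝ) * Real.log ((2 : ℕ) : ℝ) :=
      mul_le_mul_of_nonneg_left h5 (Nat.cast_nonneg _)
    have h66 := h6.trans h4
    linarith
  have h7 : (Nat.sqrt (Nat.log 2 N) : ℝ) ≤ (Nat.log 2 N : ℝ) := by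
    exact_mod_cast Nat.sqrt_le_self _
  have h8 : (Nat.sqrt (Nat.log 2 N) : ℝ) + 1 ≤ 2 * (1 + Real.log N) := by linarith
  calc (s : ℝ) ^ 300 * ((Nat.sqrt (Nat.log 2 N) : ℝ) + 1)
      ≤ (s : ℝ) ^ 300 * (2 * (1 + Real.log N)) := mul_le_mul_of_nonneg_left h8 (by positivity)
    _ = _ := by ring

/-! ## The limits -/

theorem lim_pow (ν : ℝ) (hν : 0 < ν) :
    Filter.Tendsto (fun N : ℕ => (1 + Real.log N) ^ 9 * (N : ℝ) ^ (-ν)) Filter.atTop (nhds 0) := by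
  set δ : ℝ := ν / 18 with hδ
  have hδ0 : 0 < δ := by positivity
  have h1 : Filter.Tendsto (fun N : ℕ => (1 + 1 / δ) ^ 9 * (N : ℝ) ^ (-(ν / 2))) Filter.atTop
      (nhds 0) := by
    have h2 : Filter.Tendsto (fun x : ℝ => x ^ (-(ν / 2))) Filter.atTop (nhds 0) :=
      tendsto_rpow_neg_atTop (by positivity)
    have h3 := (h2.comp tendsto_natCast_atTop_atTop).const_mul ((1 + 1 / δ) ^ 9)
    simpa using h3
  refine tendsto_of_tendsto_of_tendsto_of_le_of_le' tendsto_const_nhds h1 ?_ ?_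
  · filter_upwards with N
    have := Real.log_natCast_nonneg N
    positivity
  · filter_upwards [Filter.eventually_ge_atTop 1] with N hN
    have hN1 : (1 : ℝ) ≤ N := by exact_mod_cast hN
    have hN0 : (0 : ℝ) < N := by linarith
    have hL := Real.log_natCast_nonneg N
    have h2 : Real.log N ≤ (N : ℝ) ^ δ / δ := Real.log_le_rpow_div hN0.le hδ0
    have h3 : 1 ≤ (N : ℝ) ^ δ := Real.one_le_rpow hN1 hδ0.le
    have h4 : 1 + Real.log N ≤ (1 + 1 / δ) * (N : ℝ) ^ δ := by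
      calc 1 + Real.log N ≤ (N : ℝ) ^ δ + (N : ℝ) ^ δ / δ := by linarith
        _ = _ := by ring
    have h5 : (1 + Real.log N) ^ 9 ≤ ((1 + 1 / δ) * (N : ℝ) ^ δ) ^ 9 :=
      pow_le_pow_left₀ (by linarith) h4 9
    calc (1 + Real.log N) ^ 9 * (N : ℝ) ^ (-ν)
        ≤ ((1 + 1 / δ) * (N : ℝ) ^ δ) ^ 9 * (N : ℝ) ^ (-ν) :=
          mul_le_mul_of_nonneg_right h5 (by positivity)
      _ = (1 + 1 / δ) ^ 9 * (((N : ℝ) ^ δ) ^ 9 * (N : ℝ) ^ (-ν)) := by ring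
      _ = (1 + 1 / δ) ^ 9 * (N : ℝ) ^ (-(ν / 2)) := by
          rw [← Real.rpow_natCast ((N : ℝ) ^ δ) 9, ← Real.rpow_mul hN0.le, ← Real.rpow_add hN0]
          congr 2
          rw [hδ]
          push_cast
          ring

theorem lim_T :
    Filter.Tendsto (fun N : ℕ => (Real.log N) ^ (-(1 / 8 : ℝ))) Filter.atTop (nhds 0) := by
  have h2 : Filter.Tendsto (fun x : ℝ => x ^ (-(1 / 8 : ℝ))) Filter.atTop (nhds 0) :=
    tendsto_rpow_neg_atTop (by norm_num)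
  exact h2.comp (Real.tendsto_log_atTop.comp tendsto_natCast_atTop_atTop)

/-! ## The real inequalities -/

theorem ineq_o1 {A CT V CA T y Q L M P C0 c0 Cv B1 ε : ℝ} (hC0 : 0 < C0) (hc0 : 0 < c0)
    (hCT : 0 < CT) (hCv : 0 < Cv) (hCA : 0 < CA) (hA0 : 0 < A) (hAC : A ≤ C0) (hV0 : 0 < V)
    (hVM : V ≤ Cv / c0 * M) (hT0 : 0 < T) (hQ0 : 0 < Q)
    (hB1 : B1 = 4 * C0 ^ 2 * CT ^ 2 * (Cv / c0) ^ 2 * CA) (hP : P = (T * M) ^ 2) (hL0 : 0 < L)
    (hTL : √L ≤ T) (g1 : B1 * Q * L ^ (-(1 / 8 : ℝ)) ≤ ε / 3) :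
    4 * A ^ 2 * CT ^ 2 * V ^ 2 * (CA * T ^ 2 * (1 / √y + Q * T ^ (-(1 / 4 : ℝ)))) ≤
      (B1 / √y + ε / 3) * P := by
  have hP0 : 0 ≤ P := by rw [hP]; positivity
  have hB10 : 0 < B1 := by rw [hB1]; positivity
  have hTpow : T ^ (-(1 / 4 : ℝ)) ≤ L ^ (-(1 / 8 : ℝ)) := by
    have h2 : T ^ (-(1 / 4 : ℝ)) ≤ (√L) ^ (-(1 / 4 : ℝ)) :=
      Real.rpow_le_rpow_of_nonpos (Real.sqrt_pos.2 hL0) hTL (by norm_num)
    refine h2.trans (le_of_eq ?_)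
    rw [Real.sqrt_eq_rpow, ← Real.rpow_mul hL0.le]
    norm_num
  have hX : 0 ≤ CA * T ^ 2 * (1 / √y + Q * T ^ (-(1 / 4 : ℝ))) := by positivity
  have hA2 : A ^ 2 ≤ C0 ^ 2 := pow_le_pow_left₀ hA0.le hAC 2
  have hV2 : V ^ 2 ≤ (Cv / c0 * M) ^ 2 := pow_le_pow_left₀ hV0.le hVM 2
  have h1 : 4 * A ^ 2 * CT ^ 2 * V ^ 2 ≤ 4 * C0 ^ 2 * CT ^ 2 * (Cv / c0 * M) ^ 2 := by
    have h2 : 4 * A ^ 2 * CT ^ 2 ≤ 4 * C0 ^ 2 * CT ^ 2 := by
      have := mul_le_mul_of_nonneg_right hA2 (by positivity : 0 ≤ 4 * CT ^ 2)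
      linarith
    exact mul_le_mul h2 hV2 (by positivity) (by positivity)
  calc _ ≤ 4 * C0 ^ 2 * CT ^ 2 * (Cv / c0 * M) ^ 2 *
        (CA * T ^ 2 * (1 / √y + Q * T ^ (-(1 / 4 : ℝ)))) :=
        mul_le_mul_of_nonneg_right h1 hX
    _ = (B1 / √y + B1 * Q * T ^ (-(1 / 4 : ℝ))) * P := by
        rw [hB1, hP]; ring
    _ ≤ (B1 / √y + ε / 3) * P := by
        refine mul_le_mul_of_nonneg_right ?_ hP0
        have h2 : B1 * Q * T ^ (-(1 / 4 : ℝ)) ≤ B1 * Q * L ^ (-(1 / 8 : ℝ)) :=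
          mul_le_mul_of_nonneg_left hTpow (by positivity)
        linarith

theorem ineq_o2 {W L T Q z g K2 S c0 ε M P : ℝ} (hW0 : 0 ≤ W) (hW1 : W ≤ (1 + L) ^ 2)
    (hL0 : 0 < L) (hT0 : 0 < T) (hTu : T ≤ 2 * S * (1 + L)) (hS : 1 ≤ S) (hQ0 : 0 < Q)
    (hz0 : 0 < z) (hinv : 1 / z ≤ g) (hc0 : 0 < c0)
    (hK2 : K2 = 4 * (Q * (3 * S)) ^ 4 / c0 ^ 2) (hM2 : c0 ^ 2 ≤ M ^ 2 * (1 + L))
    (g2 : K2 * ((1 + L) ^ 9 * g) ≤ ε / 3) (hP : P = (T * M) ^ 2) :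
    4 * W ^ 2 * (T ^ 2 * ((Q * (T + 1)) ^ 4 / z)) ≤ ε / 3 * P := by
  have hg0 : 0 < g := lt_of_lt_of_le (by positivity) hinv
  have h1 : W ^ 2 ≤ (1 + L) ^ 4 := by
    calc _ ≤ ((1 + L) ^ 2) ^ 2 := pow_le_pow_left₀ hW0 hW1 2
      _ = _ := by ring
  have h2 : T + 1 ≤ 3 * S * (1 + L) := by
    have h3 : 1 ≤ S * (1 + L) := by nlinarith
    linarith
  have h3 : (Q * (T + 1)) ^ 4 ≤ (Q * (3 * S)) ^ 4 * (1 + L) ^ 4 := by
    rw [← mul_pow]
    refine pow_le_pow_left₀ (by positivity) ?_ 4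
    calc Q * (T + 1) ≤ Q * (3 * S * (1 + L)) := mul_le_mul_of_nonneg_left h2 hQ0.le
      _ = _ := by ring
  have h4 : (Q * (T + 1)) ^ 4 / z ≤ (Q * (3 * S)) ^ 4 * (1 + L) ^ 4 * g := by
    rw [div_eq_mul_one_div]
    exact mul_le_mul h3 hinv (by positivity) (by positivity)
  have hK20 : 0 < K2 := by rw [hK2]; positivity
  have h5 : 4 * W ^ 2 * ((Q * (T + 1)) ^ 4 / z) ≤ ε / 3 * M ^ 2 := by
    calc _ ≤ 4 * (1 + L) ^ 4 * ((Q * (3 * S)) ^ 4 * (1 + L) ^ 4 * g) := by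
          refine mul_le_mul ?_ h4 (by positivity) (by positivity)
          linarith
      _ = K2 * ((1 + L) ^ 8 * g) * c0 ^ 2 := by
          rw [hK2]
          field_simp
      _ ≤ K2 * ((1 + L) ^ 8 * g) * (M ^ 2 * (1 + L)) :=
          mul_le_mul_of_nonneg_left hM2 (by positivity)
      _ = K2 * ((1 + L) ^ 9 * g) * M ^ 2 := by ring
      _ ≤ ε / 3 * M ^ 2 := mul_le_mul_of_nonneg_right g2 (by positivity)
  calc _ = (4 * W ^ 2 * ((Q * (T + 1)) ^ 4 / z)) * T ^ 2 := by ring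
    _ ≤ (ε / 3 * M ^ 2) * T ^ 2 := mul_le_mul_of_nonneg_right h5 (by positivity)
    _ = _ := by rw [hP]; ring

theorem ineq_o3 {r S s DIAG CD V Cv c0 M T P B2 : ℝ} (h0 : 0 ≤ r) (h1 : r ≤ 2 * S)
    (hs0 : 0 < s) (hS : 0 < S)
    (d1 : DIAG ≤ CD * V * r ^ 3) (hVM : V ≤ Cv / c0 * M) (hCD : 0 < CD) (hCv : 0 < Cv)
    (hc0 : 0 < c0) (hM0 : 0 < M)
    (hT0 : 0 < T) (hTM : c0 * (S ^ 3 * s) ≤ T * M) (hB2 : B2 = 8 * CD * (Cv / c0) / c0)
    (hP : P = (T * M) ^ 2) :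
    T * DIAG ≤ B2 / s * P := by
  have hB20 : 0 < B2 := by rw [hB2]; positivity
  have h2 : r ^ 3 ≤ 8 * S ^ 3 := by
    calc _ ≤ (2 * S) ^ 3 := pow_le_pow_left₀ h0 h1 3
      _ = _ := by ring
  have h3 : DIAG ≤ CD * (Cv / c0 * M) * (8 * S ^ 3) := by
    refine d1.trans ?_
    refine mul_le_mul ?_ h2 (by positivity) (by positivity)
    exact mul_le_mul_of_nonneg_left hVM hCD.le
  calc T * DIAG ≤ T * (CD * (Cv / c0 * M) * (8 * S ^ 3)) :=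
        mul_le_mul_of_nonneg_left h3 hT0.le
    _ = B2 / s * (T * M) * (c0 * (S ^ 3 * s)) := by
        rw [hB2]
        field_simp
    _ ≤ B2 / s * (T * M) * (T * M) := mul_le_mul_of_nonneg_left hTM (by positivity)
    _ = _ := by rw [hP]; ring

theorem ineq_o4 {T SC M N Q ε P z X g L K3 C0 c0 : ℝ} (hSC0 : 0 ≤ SC) (hM0 : 0 < M)
    (hMC : M ≤ C0) (hN0 : 0 < N) (hQ0 : 0 < Q) (hz1 : 1 ≤ z) (hzN : z ≤ N)
    (f3 : SC ≤ 2 * X) (hX : z * X ≤ √N) (hinv : 1 / z ≤ g) (hc0 : 0 < c0) (hL0 : 0 < L)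
    (hK3 : K3 = (8 + 2 * C0 ^ 2) * Q / c0 ^ 2) (hM2 : c0 ^ 2 ≤ M ^ 2 * (1 + L))
    (g3 : K3 * ((1 + L) ^ 9 * g) ≤ ε / 3) (hP : P = (T * M) ^ 2) :
    T ^ 2 * (SC + |M|) ^ 2 ≤ N / Q * (ε / 3 * P) := by
  have hz0 : 0 < z := by linarith
  have hg0 : 0 < g := lt_of_lt_of_le (by positivity) hinv
  have hK30 : 0 < K3 := by rw [hK3]; positivity
  have h1 : SC * z ≤ 2 * √N := by
    calc SC * z ≤ 2 * X * z := mul_le_mul_of_nonneg_right f3 hz0.le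
      _ = 2 * (z * X) := by ring
      _ ≤ 2 * √N := by linarith
  have h2 : SC ^ 2 ≤ 4 * N * g := by
    have h3 : (SC * z) ^ 2 ≤ (2 * √N) ^ 2 := pow_le_pow_left₀ (by positivity) h1 2
    rw [mul_pow, mul_pow, Real.sq_sqrt hN0.le] at h3
    have h4 : SC ^ 2 ≤ 4 * N * (1 / z) := by
      rw [mul_one_div, le_div_iff₀ hz0]
      calc SC ^ 2 * z ≤ SC ^ 2 * z ^ 2 := by
            refine mul_le_mul_of_nonneg_left ?_ (by positivity)
            nlinarith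
        _ ≤ 2 ^ 2 * N := h3
        _ = 4 * N := by ring
    exact h4.trans (mul_le_mul_of_nonneg_left hinv (by positivity))
  have h3 : M ^ 2 ≤ C0 ^ 2 * (N * g) := by
    have h4 : 1 ≤ N * g := by
      calc (1 : ℝ) = N * (1 / N) := by field_simp
        _ ≤ N * (1 / z) := mul_le_mul_of_nonneg_left
            (one_div_le_one_div_of_le hz0 hzN) hN0.le
        _ ≤ _ := mul_le_mul_of_nonneg_left hinv hN0.le
    calc M ^ 2 ≤ C0 ^ 2 := pow_le_pow_left₀ hM0.le hMC 2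
      _ = C0 ^ 2 * 1 := (mul_one _).symm
      _ ≤ _ := mul_le_mul_of_nonneg_left h4 (by positivity)
  have h4 : (SC + |M|) ^ 2 ≤ 2 * SC ^ 2 + 2 * M ^ 2 := by
    rw [← sq_abs M]
    nlinarith [sq_nonneg (SC - |M|)]
  have h5 : (SC + |M|) ^ 2 ≤ N / Q * (ε / 3 * M ^ 2) := by
    calc (SC + |M|) ^ 2 ≤ (8 + 2 * C0 ^ 2) * (N * g) := by linarith
      _ = N / Q * (K3 * g * c0 ^ 2) := by
          rw [hK3]
          field_simp
      _ ≤ N / Q * (K3 * g * (M ^ 2 * (1 + L))) := by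
          refine mul_le_mul_of_nonneg_left ?_ (by positivity)
          exact mul_le_mul_of_nonneg_left hM2 (by positivity)
      _ = N / Q * (K3 * ((1 + L) * g) * M ^ 2) := by ring
      _ ≤ N / Q * (ε / 3 * M ^ 2) := by
          refine mul_le_mul_of_nonneg_left ?_ (by positivity)
          refine mul_le_mul_of_nonneg_right ?_ (by positivity)
          refine le_trans ?_ g3
          refine mul_le_mul_of_nonneg_left ?_ hK30.le
          refine mul_le_mul_of_nonneg_right ?_ hg0.le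
          calc 1 + L = (1 + L) ^ 1 := (pow_one _).symm
            _ ≤ (1 + L) ^ 9 := pow_le_pow_right₀ (by linarith) (by norm_num)
  calc T ^ 2 * (SC + |M|) ^ 2 ≤ T ^ 2 * (N / Q * (ε / 3 * M ^ 2)) :=
        mul_le_mul_of_nonneg_left h5 (by positivity)
    _ = _ := by rw [hP]; ring

theorem ineq_fin {LHS N N₀ Q OFF T DIAG X B1 B2 y s ε P O1 O2 : ℝ}
    (hv : LHS ≤ (N - N₀) / Q * (OFF + T * DIAG) + X) (ho : OFF ≤ O1 + O2)
    (o1 : O1 ≤ (B1 / √y + ε / 3) * P) (o2 : O2 ≤ ε / 3 * P) (o3 : T * DIAG ≤ B2 / s * P)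
    (o4 : X ≤ N / Q * (ε / 3 * P)) (hN₀ : 0 ≤ N₀) (hN : N₀ ≤ N) (hQ : 0 < Q) (hy : 0 < y)
    (hs : 0 < s) (hε : 0 < ε) (hB1 : 0 < B1) (hB2 : 0 < B2) (hP : 0 ≤ P) :
    LHS ≤ ((B1 + B2) / √y + (B1 + B2) / s + ε) * (N / Q) * P := by
  have hsy : 0 < √y := Real.sqrt_pos.2 hy
  have e1 : OFF + T * DIAG ≤ (B1 / √y + B2 / s + 2 * ε / 3) * P := by
    calc OFF + T * DIAG ≤ ((B1 / √y + ε / 3) * P + ε / 3 * P) + B2 / s * P := by linarith
      _ = _ := by ring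
  have e2 : 0 ≤ (B1 / √y + B2 / s + 2 * ε / 3) * P := by positivity
  have e3 : (N - N₀) / Q * (OFF + T * DIAG) ≤
      N / Q * ((B1 / √y + B2 / s + 2 * ε / 3) * P) := by
    calc _ ≤ (N - N₀) / Q * ((B1 / √y + B2 / s + 2 * ε / 3) * P) :=
          mul_le_mul_of_nonneg_left e1 (div_nonneg (by linarith) hQ.le)
      _ ≤ _ := by
          refine mul_le_mul_of_nonneg_right ?_ e2
          exact div_le_div_of_nonneg_right (by linarith) hQ.le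
  have e4 : B1 / √y + B2 / s + ε ≤ (B1 + B2) / √y + (B1 + B2) / s + ε := by
    have h1 : B1 / √y ≤ (B1 + B2) / √y := div_le_div_of_nonneg_right (by linarith) hsy.le
    have h2 : B2 / s ≤ (B1 + B2) / s := div_le_div_of_nonneg_right (by linarith) hs.le
    linarith
  have hNQ : 0 ≤ N / Q := div_nonneg (by linarith) hQ.le
  calc LHS ≤ (N - N₀) / Q * (OFF + T * DIAG) + X := hv
    _ ≤ N / Q * ((B1 / √y + B2 / s + 2 * ε / 3) * P) + N / Q * (ε / 3 * P) := add_le_add e3 o4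
    _ = (B1 / √y + B2 / s + ε) * (N / Q * P) := by ring
    _ ≤ ((B1 + B2) / √y + (B1 + B2) / s + ε) * (N / Q * P) :=
        mul_le_mul_of_nonneg_right e4 (by positivity)
    _ = _ := by ring

/-! ## The variance -/

theorem pf_VN (hVR : T_VR) (hAV : T_AV) (hFD : T_FD) (hTJ : T_TJ) (hDG : T_DG) (hMM : T_MM)
    (hVV : T_VV) : T_VN := by
  obtain ⟨CT, hCT, ST, hTJ⟩ := hTJ
  obtain ⟨CD, hCD, SD', hDG⟩ := hDG
  obtain ⟨c0, C0, hc0, hC0, SM, U, hMM⟩ := hMM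
  obtain ⟨cv, Cv, hcv, hCv, hVV⟩ := hVV
  obtain ⟨CA, hCA, hAV⟩ := hAV (CT ^ 2) (by nlinarith)
  obtain ⟨hFD1, hFD2, hFD3⟩ := hFD
  have hCT0 : 0 < CT := by linarith
  set B1 : ℝ := 4 * C0 ^ 2 * CT ^ 2 * (Cv / c0) ^ 2 * CA with hB1
  set B2 : ℝ := 8 * CD * (Cv / c0) / c0 with hB2
  have hB1p : 0 < B1 := by positivity
  have hB2p : 0 < B2 := by positivity
  refine ⟨B1 + B2, by positivity, max (max ST SD') (max SM (U + 20)), ?_⟩
  intro s hs y Q hy hQ hQp ε hε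
  have hsT : ST ≤ s := (le_max_left _ _).trans ((le_max_left _ _).trans hs)
  have hsD : SD' ≤ s := (le_max_right _ _).trans ((le_max_left _ _).trans hs)
  have hsM : SM ≤ s := (le_max_left _ _).trans ((le_max_right _ _).trans hs)
  have hsU : U + 20 ≤ s := (le_max_right _ _).trans ((le_max_right _ _).trans hs)
  have hs1 : (1 : ℝ) ≤ s := by exact_mod_cast (by omega : 1 ≤ s)
  have hs0 : (0 : ℝ) < s := by linarith
  have hQ0 : (0 : ℝ) < Q := by exact_mod_cast hQ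
  have hQ1 : (1 : ℝ) ≤ Q := by exact_mod_cast hQ
  set ν : ℝ := 1 / ((s : ℝ) ^ 100 + 1) with hν
  have hν0 : 0 < ν := by positivity
  set K2 : ℝ := 4 * ((Q : ℝ) * (3 * (s : ℝ) ^ 300)) ^ 4 / c0 ^ 2 with hK2
  set K3 : ℝ := (8 + 2 * C0 ^ 2) * Q / c0 ^ 2 with hK3
  have hK2p : 0 < K2 := by positivity
  have hK3p : 0 < K3 := by positivity
  have l1 : ∀ᶠ N : ℕ in Filter.atTop, B1 * Q * (Real.log N) ^ (-(1 / 8 : ℝ)) < ε / 3 := by
    have h := lim_T.const_mul (B1 * Q)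
    rw [mul_zero] at h
    exact h.eventually (gt_mem_nhds (by positivity))
  have l2 : ∀ᶠ N : ℕ in Filter.atTop,
      K2 * ((1 + Real.log N) ^ 9 * (N : ℝ) ^ (-ν)) < ε / 3 := by
    have h := (lim_pow ν hν0).const_mul K2
    rw [mul_zero] at h
    exact h.eventually (gt_mem_nhds (by positivity))
  have l3 : ∀ᶠ N : ℕ in Filter.atTop,
      K3 * ((1 + Real.log N) ^ 9 * (N : ℝ) ^ (-ν)) < ε / 3 := by
    have h := (lim_pow ν hν0).const_mul K3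
    rw [mul_zero] at h
    exact h.eventually (gt_mem_nhds (by positivity))
  obtain ⟨N₂, hN₂⟩ := Filter.eventually_atTop.1 (l1.and (l2.and l3))
  refine ⟨max N₂ (y ^ (s ^ 100 + 1) + 3), ?_⟩
  intro N hN z E a b N₀ hP hb hbT hN0
  obtain ⟨g1, g2, g3⟩ := hN₂ N ((le_max_left _ _).trans hN)
  have hNy : y ^ (s ^ 100 + 1) + 3 ≤ N := (le_max_right _ _).trans hN
  have hyz : y ≤ z := by
    by_contra hlt
    have h1 : z ^ (s ^ 100 + 1) ≤ y ^ (s ^ 100 + 1) := Nat.pow_le_pow_left (by omega) _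
    have h2 := hP.2.1
    omega
  have hz2 : 2 ≤ z := by omega
  obtain ⟨hEU, hEz, hEq, hEN, hzN, hzN'⟩ := par_facts hsU hz2 hP
  obtain ⟨hl1, hl2⟩ := par_logs hz2 hP
  have hinv := par_inv hz2 hP
  rw [← hν] at hinv
  obtain ⟨m1, m2, m3, m4⟩ := hMM s hsM y z E (by omega) hyz hEU
  obtain ⟨v1, v2⟩ := hVV y z (by omega) hyz
  obtain ⟨t1, t2, t3⟩ := hTJ s hsT y z E hz2 (by omega)
  have d1 := hDG s hsD y z E hz2 hEz
  have f3 := hFD3 y s z E hz2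
  have hv := hVR (cc y s z E) (z ^ (4 * s + 4) * E) Q a b (TT s N) N₀ N hQ (by
    intro k hk
    obtain ⟨k1, k2, k3⟩ := hFD2 y s z E k hz2 hyz hk
    refine ⟨k1, k2, ?_⟩
    refine Nat.coprime_of_dvd ?_
    intro p hp hpk hpQ
    exact absurd (hQp p hp hpQ) (not_le.2 (k3 p hp hpk))) hbT hN0
  have hTl := TT_lower s N (by omega)
  have hTu := TT_upper s N (by omega)
  rw [t1] at hv
  simp only [← hFD1] at hv
  have hT1 : 1 ≤ TT s N := by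
    unfold TT
    exact Nat.one_le_iff_ne_zero.2 (Nat.mul_ne_zero (pow_ne_zero _ (by omega)) (by omega))
  have ho := off_bound (tc := fun j => Tc (cc y s z E) (z ^ (4 * s + 4) * E) j)
    (K := z ^ (4 * s + 4) * E) (T := TT s N)
    (by omega : 1 ≤ z) hQ hb hQp t2 (W := (1 + Real.log (z ^ (4 * s + 4))) * (1 + Real.log E))
    (fun j hj => by
      have := t3 j hj
      calc _ ≤ _ := this
        _ = _ := by ring) (hAV y Q b (TT s N) (z ^ (4 * s + 4) * E) (by omega) hQ hb hT1)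
  -- abbreviations
  generalize hKd : z ^ (4 * s + 4) * E = K at *
  generalize hTd : TT s N = T at *
  generalize hMd : MV y s z E = M at *
  generalize hAd : AE z E = A at *
  generalize hVd : VA (A3 y) z = V at *
  generalize hOd : ∑ t₁ ∈ Icc 1 T, ∑ t₂ ∈ Icc 1 T, ic (t₁ ≠ t₂) *
            ∑ j ∈ Icc 2 K, (sg j (hh (b + Q * t₁) (b + Q * t₂)) : ℝ) * Tc (cc y s z E) K j ^ 2 = OFF at *
  generalize hDd : |∑ k₁ ∈ Icc 1 K, ∑ k₂ ∈ Icc 1 K, cc y s z E k₁ * cc y s z E k₂ / (Nat.lcm k₁ k₂ : ℝ)| = DIAG at *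
  generalize hSd : ∑ k ∈ Icc 1 K, |cc y s z E k| = SC at *
  clear hVR hAV hTJ hDG hMM hVV hFD1 hFD2 hFD3 l1 l2 l3 hN₂ t1 t2 t3 hN hNy
  have hN1 : 1 ≤ N := by omega
  have hNr : (0 : ℝ) < N := by exact_mod_cast hN1
  have hzr : (0 : ℝ) < z := by exact_mod_cast (by omega : 0 < z)
  have hzr1 : (1 : ℝ) ≤ z := by exact_mod_cast (by omega : 1 ≤ z)
  have hzNr : (z : ℝ) ≤ N := by exact_mod_cast hzN'
  have hEr1 : (1 : ℝ) ≤ E := by exact_mod_cast (by omega : 1 ≤ E)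
  have hEr0 : (0 : ℝ) < E := lt_of_lt_of_le one_pos hEr1
  have hTr : (1 : ℝ) ≤ T := by exact_mod_cast hT1
  have hT0 : (0 : ℝ) < T := lt_of_lt_of_le one_pos hTr
  have hyr : (3 : ℝ) ≤ y := by exact_mod_cast hy
  have hyr0 : (0 : ℝ) < y := lt_of_lt_of_le (by norm_num) hyr
  have hy1 : 1 ≤ Real.log y := by
    rw [Real.le_log_iff_exp_le hyr0]
    exact le_trans (by have := Real.exp_one_lt_d9; linarith) hyr
  have hyz' : Real.log y ≤ Real.log z :=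
    Real.log_le_log hyr0 (by exact_mod_cast hyz)
  have hz1 : 1 ≤ Real.log z := hy1.trans hyz'
  have hlz0 : 0 < Real.log z := lt_of_lt_of_le one_pos hz1
  have hzL : Real.log z ≤ Real.log N := Real.log_le_log hzr hzNr
  have hL1 : 1 ≤ Real.log N := hz1.trans hzL
  have hWz : Real.log ((z : ℝ) ^ (4 * s + 4)) ≤ Real.log N :=
    Real.log_le_log (by positivity) (by exact_mod_cast hzN)
  have hWE : Real.log E ≤ Real.log N :=
    Real.log_le_log hEr0 (by exact_mod_cast hEN)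
  have hWz0 : 0 ≤ Real.log ((z : ℝ) ^ (4 * s + 4)) := Real.log_nonneg (one_le_pow₀ hzr1)
  have hWE0 : 0 ≤ Real.log E := Real.log_nonneg hEr1
  generalize hLd : Real.log N = L at *
  have hL0 : 0 < L := lt_of_lt_of_le one_pos hL1
  -- the size of R
  have hR2 : √(Real.log y / Real.log z) ^ 2 = Real.log y / Real.log z :=
    Real.sq_sqrt (div_nonneg (zero_le_one.trans hy1) hlz0.le)
  have hR0 : 0 < √(Real.log y / Real.log z) :=
    Real.sqrt_pos.2 (div_pos (lt_of_lt_of_le one_pos hy1) hlz0)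
  have hR1 : √(Real.log y / Real.log z) ≤ 1 := by
    rw [Real.sqrt_le_one, div_le_one hlz0]
    exact hyz'
  have hLR : (s : ℝ) ^ 50 ≤ √L * √(Real.log y / Real.log z) := by
    rw [← Real.sqrt_mul hL0.le]
    refine Real.le_sqrt_of_sq_le ?_
    rw [← pow_mul, show 50 * 2 = 100 by norm_num, ← mul_div_assoc, le_div_iff₀ hlz0]
    calc (s : ℝ) ^ 100 * Real.log z ≤ L := hl1
      _ = L * 1 := (mul_one L).symm
      _ ≤ L * Real.log y := mul_le_mul_of_nonneg_left hy1 hL0.le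
  generalize hRd : √(Real.log y / Real.log z) = R at *
  have hM0 : 0 < M := lt_of_lt_of_le (mul_pos hc0 hR0) m1
  have hMC : M ≤ C0 := m2.trans (mul_le_of_le_one_right hC0.le hR1)
  have hRM : R ≤ M / c0 := by
    rw [le_div_iff₀ hc0, mul_comm]; exact m1
  have hV0 : 0 < V := lt_of_lt_of_le (mul_pos hcv hR0) v1
  have hVM : V ≤ Cv / c0 * M := by
    calc V ≤ Cv * R := v2
      _ ≤ Cv * (M / c0) := mul_le_mul_of_nonneg_left hRM hCv.le
      _ = _ := by ring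
  have hA0 : 0 < A := lt_of_lt_of_le hc0 m3
  -- M ^ 2 is not small
  have hM2 : c0 ^ 2 ≤ M ^ 2 * (1 + L) := by
    have h1 : (c0 * R) ^ 2 ≤ M ^ 2 := pow_le_pow_left₀ (mul_pos hc0 hR0).le m1 2
    have h2 : 1 ≤ R ^ 2 * (1 + L) := by
      rw [hR2, div_mul_eq_mul_div, le_div_iff₀ hlz0, one_mul]
      calc Real.log z ≤ L := hzL
        _ ≤ 1 + L := by simp
        _ = 1 * (1 + L) := (one_mul _).symm
        _ ≤ Real.log y * (1 + L) := mul_le_mul_of_nonneg_right hy1 (by positivity)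
    calc c0 ^ 2 = c0 ^ 2 * 1 := (mul_one _).symm
      _ ≤ c0 ^ 2 * (R ^ 2 * (1 + L)) := mul_le_mul_of_nonneg_left h2 (by positivity)
      _ = (c0 * R) ^ 2 * (1 + L) := by ring
      _ ≤ M ^ 2 * (1 + L) := mul_le_mul_of_nonneg_right h1 (by positivity)
  -- T M is large
  have hTM : c0 * (((s : ℝ) ^ 100) ^ 3 * s) ≤ T * M := by
    have h50 : (s : ℝ) ≤ (s : ℝ) ^ 50 := by
      calc (s : ℝ) = (s : ℝ) ^ 1 := (pow_one _).symm
        _ ≤ (s : ℝ) ^ 50 := pow_le_pow_right₀ hs1 (by norm_num)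
    calc c0 * (((s : ℝ) ^ 100) ^ 3 * s) = c0 * (s : ℝ) ^ 300 * s := by ring
      _ ≤ c0 * (s : ℝ) ^ 300 * (√L * R) :=
          mul_le_mul_of_nonneg_left (h50.trans hLR) (by positivity)
      _ = ((s : ℝ) ^ 300 * √L) * (c0 * R) := by ring
      _ ≤ T * M := mul_le_mul hTl m1 (mul_pos hc0 hR0).le hT0.le
  have hTL : √L ≤ T := by
    calc √L = 1 * √L := (one_mul _).symm
      _ ≤ (s : ℝ) ^ 300 * √L :=
        mul_le_mul_of_nonneg_right (one_le_pow₀ hs1) (Real.sqrt_nonneg _)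
      _ ≤ T := hTl
  have hS100 : (1 : ℝ) ≤ (s : ℝ) ^ 100 := one_le_pow₀ hs1
  have o1 := ineq_o1 (y := (y : ℝ)) hC0 hc0 hCT0 hCv hCA hA0 m4 hV0 hVM hT0 hQ0 hB1 rfl hL0 hTL g1.le
  have o2 := ineq_o2 (W := (1 + Real.log ((z : ℝ) ^ (4 * s + 4))) * (1 + Real.log E))
    (mul_nonneg (add_nonneg zero_le_one hWz0) (add_nonneg zero_le_one hWE0))
    (by
      rw [sq]
      exact mul_le_mul (add_le_add_right hWz 1) (add_le_add_right hWE 1)
        (add_nonneg zero_le_one hWE0) (by positivity))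
    hL0 hT0 hTu (one_le_pow₀ hs1) hQ0 hzr hinv hc0 hK2 hM2 g2.le rfl
  have o3 := ineq_o3 (r := Real.log E / Real.log z) (S := (s : ℝ) ^ 100) (s := (s : ℝ))
    (div_nonneg hWE0 hlz0.le)
    (by
      rw [div_le_iff₀ hlz0]
      calc Real.log E ≤ L := hWE
        _ ≤ ((s : ℝ) ^ 100 + 1) * Real.log z := hl2
        _ ≤ 2 * (s : ℝ) ^ 100 * Real.log z := by
            refine mul_le_mul_of_nonneg_right ?_ hlz0.le
            rw [two_mul]
            exact add_le_add_right hS100 _)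
    hs0 (lt_of_lt_of_le one_pos hS100) d1 hVM hCD hCv hc0 hM0 hT0 hTM hB2 rfl
  have o4 := ineq_o4 (T := (T : ℝ)) (X := (z : ℝ) ^ (4 * s + 4) * E)
    (by rw [← hSd]; exact Finset.sum_nonneg (fun _ _ => abs_nonneg _) : 0 ≤ SC) hM0 hMC hNr hQ0
    hzr1 hzNr (f3.trans (le_of_eq (by ring)))
    (by
      have h2 : ((z ^ (4 * s + 5) * E : ℕ) : ℝ) ≤ (Nat.sqrt N : ℕ) := by exact_mod_cast hEq
      have h3 : ((Nat.sqrt N : ℕ) : ℝ) ≤ √N := by
        refine Real.le_sqrt_of_sq_le ?_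
        have := Nat.sqrt_le' N
        exact_mod_cast this
      refine le_trans (le_of_eq ?_) (h2.trans h3)
      push_cast
      ring) hinv hc0 hL0 hK3 hM2 g3.le rfl
  exact ineq_fin hv ho o1 o2 o3 o4 (Nat.cast_nonneg _) (by exact_mod_cast hN0) hQ0 hyr0 hs0 hε
    hB1p hB2p (by positivity)

end Pool.Agent.H99.MS
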